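import Mathlib

/-!
# Maximum number of distinct palindromic subsequences of a word (MP_06621a_co, Q1, full answer)

For every `n ≥ 1` the maximum of `SP(w)` over all words of length `n` is `M(n)`, and a word of
length `n` attains it only if its number `q` of letters is `⌈n/2⌉` (`n` odd), respectively
`n/2` or `n/2 + 1` (`n` even).
-/

namespace Pool.Agent.Results.MP_06621a_co.MaxPalSub

/-- `SP(w)`: the number of distinct nonempty palindromes that are scattered subwords
(subsequences) of the word `w`. -/
noncomputable def SP (w : List ℕ) : ℕ := {u : List ℕ | u ≠ [] ∧ u.reverse = u ∧ u.Sublist w}.ncard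

/-- The value `M(n)` of the problem. -/
def M (n : ℕ) : ℕ := if n % 2 = 1 then 3 * 2 ^ ((n + 1) / 2 - 1) - 2 else 2 ^ (n / 2 + 1) - 2

/-! ### The function `h(n) = M(n) + 2` -/

/-- `h = 2, 3, 4, 6, 8, 12, 16, …`. -/
def h : ℕ → ℕ
  | 0 => 2
  | n + 1 => h n + 2 ^ (n / 2)

theorem h_add_two (n : ℕ) : h (n + 2) = 2 * h n := by
  induction n with
  | zero => rfl
  | succ n ih =>
    have e1 : h (n + 1 + 2) = h (n + 2) + 2 ^ ((n + 2) / 2) := rfl
    have e2 : h (n + 1) = h n + 2 ^ (n / 2) := rfl
    rw [e1, e2, ih, show (n + 2) / 2 = n / 2 + 1 by omega, pow_succ]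
    ring

theorem h_mono : Monotone h := by
  apply monotone_nat_of_le_succ
  intro n
  exact Nat.le_add_right _ _

theorem h_conv (x y d : ℕ) (hxy : y ≤ x) : h x + h (y + d) ≤ h (x + d) + h y := by
  induction d with
  | zero => simp
  | succ d ih =>
    have e1 : h (y + (d + 1)) = h (y + d) + 2 ^ ((y + d) / 2) := rfl
    have e2 : h (x + (d + 1)) = h (x + d) + 2 ^ ((x + d) / 2) := rfl
    have e3 : 2 ^ ((y + d) / 2) ≤ 2 ^ ((x + d) / 2) :=
      Nat.pow_le_pow_right (by norm_num) (by omega)
    omega

theorem h_ge (n : ℕ) : n + 2 ≤ h n := by
  induction n with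
  | zero => simp [h]
  | succ n ih =>
    have e : h (n + 1) = h n + 2 ^ (n / 2) := rfl
    have : 0 < 2 ^ (n / 2) := by positivity
    omega

theorem h_gt (n : ℕ) (hn : 3 ≤ n) : n + 2 < h n := by
  induction n with
  | zero => omega
  | succ n ih =>
    rcases Nat.lt_or_ge n 3 with h3 | h3
    · have : n = 2 := by omega
      subst this
      simp [h]
    · have e : h (n + 1) = h n + 2 ^ (n / 2) := rfl
      have : 0 < 2 ^ (n / 2) := by positivity
      have := ih h3
      omega

theorem h_closed (k : ℕ) : h (2 * k) = 2 ^ (k + 1) ∧ h (2 * k + 1) = 3 * 2 ^ k := by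
  induction k with
  | zero => exact ⟨rfl, rfl⟩
  | succ k ih =>
    constructor
    · rw [show 2 * (k + 1) = 2 * k + 2 by ring, h_add_two, ih.1]
      ring
    · rw [show 2 * (k + 1) + 1 = 2 * k + 1 + 2 by ring, h_add_two, ih.2]
      ring

theorem M_add_two (n : ℕ) : M n + 2 = h n := by
  unfold M
  rcases Nat.even_or_odd' n with ⟨k, hk | hk⟩
  · rw [if_neg (by omega), hk, (h_closed k).1, show 2 * k / 2 = k by omega]
    have : 2 ≤ 2 ^ (k + 1) := by
      rw [pow_succ]
      have : 0 < 2 ^ k := by positivity
      omega
    omega
  · rw [if_pos (by omega), hk, (h_closed k).2, show (2 * k + 1 + 1) / 2 - 1 = k by omega]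
    have : 0 < 2 ^ k := by positivity
    omega

/-! ### Families of intervals -/

/-- The convexity inequality for families of intervals with distinct end points. -/
theorem interval_sum (r : ℕ) : ∀ (S : Finset ℕ) (i j : ℕ → ℕ) (lo n : ℕ), S.card = r →
    (∀ a ∈ S, lo ≤ i a ∧ i a < j a ∧ j a < lo + n) →
    (∀ a ∈ S, ∀ b ∈ S, i a = i b → a = b) → (∀ a ∈ S, ∀ b ∈ S, j a = j b → a = b) →
    (∀ a ∈ S, ∀ b ∈ S, i a ≠ j b) →
    ∑ a ∈ S, h (j a - i a - 1) + h (n - 2 * r) ≤ h n := by
  induction r using Nat.strong_induction_on with
  | _ r ih =>
    intro S i j lo n hcard hb hi hj hij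
    rcases Nat.eq_zero_or_pos r with h0 | hpos
    · subst h0
      rw [Finset.card_eq_zero] at hcard
      simp [hcard]
    · have hne : S.Nonempty := by
        rw [← Finset.card_pos]
        omega
      obtain ⟨a, ha, hamin⟩ := S.exists_min_image i hne
      obtain ⟨b, hbS, hbmax⟩ := S.exists_max_image j hne
      have hA := hb a ha
      have hB := hb b hbS
      have hab1 := hamin b hbS
      have hab2 := hbmax a ha
      -- the final step
      have fin : ∀ N X : ℕ, N + 2 ≤ n → X + h (N + 2 - 2 * r) ≤ h (N + 2) →
          X + h (n - 2 * r) ≤ h n := by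
        intro N X hN hX
        have c := h_conv (N + 2) (N + 2 - 2 * r) (n - (N + 2)) (by omega)
        rw [show N + 2 + (n - (N + 2)) = n by omega] at c
        have m : h (n - 2 * r) ≤ h (N + 2 - 2 * r + (n - (N + 2))) := h_mono (by omega)
        omega
      by_cases hab : a = b
      · subst hab
        apply fin (j a - i a - 1) _ (by omega)
        have ih1 := ih (r - 1) (by omega) (S.erase a) i j (i a + 1) (j a - i a - 1)
          (by rw [Finset.card_erase_of_mem ha, hcard])
          (by
            intro c hc
            obtain ⟨hca, hcS⟩ := Finset.mem_erase.mp hc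
            have h1 := hamin c hcS
            have h2 := hbmax c hcS
            have h3 := hb c hcS
            have h4 : i a ≠ i c := fun he => hca (hi a ha c hcS he).symm
            have h5 : j c ≠ j a := fun he => hca (hj c hcS a ha he)
            omega)
          (fun c hc d hd => hi c (Finset.mem_of_mem_erase hc) d (Finset.mem_of_mem_erase hd))
          (fun c hc d hd => hj c (Finset.mem_of_mem_erase hc) d (Finset.mem_of_mem_erase hd))
          (fun c hc d hd => hij c (Finset.mem_of_mem_erase hc) d (Finset.mem_of_mem_erase hd))
        rw [← Finset.add_sum_erase S _ ha, h_add_two]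
        rw [show j a - i a - 1 - 2 * (r - 1) = j a - i a - 1 + 2 - 2 * r by omega] at ih1
        omega
      · have hia : i a ≠ i b := fun he => hab (hi a ha b hbS he)
        have hja : j a ≠ j b := fun he => hab (hj a ha b hbS he)
        have hbe : b ∈ S.erase a := Finset.mem_erase.mpr ⟨fun he => hab he.symm, hbS⟩
        rcases Nat.lt_or_ge (i b) (j a) with hov | hov
        · -- overlapping intervals: uncross them
          apply fin (j b - i a - 1) _ (by omega)
          have ih1 := ih (r - 1) (by omega) (S.erase a) i (Function.update j b (j a)) (i a + 1)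
            (j b - i a - 1) (by rw [Finset.card_erase_of_mem ha, hcard])
            (by
              intro c hc
              obtain ⟨hca, hcS⟩ := Finset.mem_erase.mp hc
              have h1 := hamin c hcS
              have h2 := hbmax c hcS
              have h3 := hb c hcS
              have h4 : i a ≠ i c := fun he => hca (hi a ha c hcS he).symm
              by_cases hcb : c = b
              · subst hcb
                rw [Function.update_self]
                omega
              · rw [Function.update_of_ne hcb]
                have h5 : j c ≠ j b := fun he => hcb (hj c hcS b hbS he)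
                omega)
            (fun c hc d hd => hi c (Finset.mem_of_mem_erase hc) d (Finset.mem_of_mem_erase hd))
            (by
              intro c hc d hd hcd
              obtain ⟨hca, hcS⟩ := Finset.mem_erase.mp hc
              obtain ⟨hda, hdS⟩ := Finset.mem_erase.mp hd
              by_cases hcb : c = b <;> by_cases hdb : d = b
              · rw [hcb, hdb]
              · rw [hcb, Function.update_self, Function.update_of_ne hdb] at hcd
                exact absurd (hj a ha d hdS hcd).symm hda
              · rw [hdb, Function.update_self, Function.update_of_ne hcb] at hcd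
                exact absurd (hj c hcS a ha hcd) hca
              · rw [Function.update_of_ne hcb, Function.update_of_ne hdb] at hcd
                exact hj c hcS d hdS hcd)
            (by
              intro c hc d hd
              obtain ⟨hca, hcS⟩ := Finset.mem_erase.mp hc
              obtain ⟨hda, hdS⟩ := Finset.mem_erase.mp hd
              by_cases hdb : d = b
              · rw [hdb, Function.update_self]
                exact hij c hcS a ha
              · rw [Function.update_of_ne hdb]
                exact hij c hcS d hdS)
          rw [← Finset.add_sum_erase (S.erase a) _ hbe, Function.update_self] at ih1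
          have hrest : ∑ x ∈ (S.erase a).erase b,
              h (Function.update j b (j a) x - i x - 1) =
              ∑ x ∈ (S.erase a).erase b, h (j x - i x - 1) := by
            apply Finset.sum_congr rfl
            intro x hx
            rw [Function.update_of_ne (Finset.ne_of_mem_erase hx)]
          rw [hrest] at ih1
          rw [← Finset.add_sum_erase S _ ha, ← Finset.add_sum_erase (S.erase a) _ hbe, h_add_two]
          have c := h_conv (j a - i a - 1) (j a - i b - 1) (j b - j a) (by omega)
          rw [show j a - i b - 1 + (j b - j a) = j b - i b - 1 by omega,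
            show j a - i a - 1 + (j b - j a) = j b - i a - 1 by omega] at c
          rw [show j b - i a - 1 - 2 * (r - 1) = j b - i a - 1 + 2 - 2 * r by omega] at ih1
          omega
        · -- disjoint intervals: merge them
          have hov' : j a < i b := lt_of_le_of_ne hov (fun he => hij b hbS a ha he.symm)
          apply fin (j b - i a - 1) _ (by omega)
          have hr2 : 2 ≤ r := by
            have := Finset.card_pos.mpr ⟨b, hbe⟩
            rw [Finset.card_erase_of_mem ha] at this
            omega
          have ih1 := ih (r - 2) (by omega) ((S.erase a).erase b) i j (i a + 1)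
            (j b - i a - 1)
            (by rw [Finset.card_erase_of_mem hbe, Finset.card_erase_of_mem ha, hcard]; omega)
            (by
              intro c hc
              obtain ⟨hcb, hc'⟩ := Finset.mem_erase.mp hc
              obtain ⟨hca, hcS⟩ := Finset.mem_erase.mp hc'
              have h1 := hamin c hcS
              have h2 := hbmax c hcS
              have h3 := hb c hcS
              have h4 : i a ≠ i c := fun he => hca (hi a ha c hcS he).symm
              have h5 : j c ≠ j b := fun he => hcb (hj c hcS b hbS he)
              omega)
            (fun c hc d hd => hi c (Finset.mem_of_mem_erase (Finset.mem_of_mem_erase hc)) d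
              (Finset.mem_of_mem_erase (Finset.mem_of_mem_erase hd)))
            (fun c hc d hd => hj c (Finset.mem_of_mem_erase (Finset.mem_of_mem_erase hc)) d
              (Finset.mem_of_mem_erase (Finset.mem_of_mem_erase hd)))
            (fun c hc d hd => hij c (Finset.mem_of_mem_erase (Finset.mem_of_mem_erase hc)) d
              (Finset.mem_of_mem_erase (Finset.mem_of_mem_erase hd)))
          rw [← Finset.add_sum_erase S _ ha, ← Finset.add_sum_erase (S.erase a) _ hbe, h_add_two]
          have m1 : h (j a - i a - 1) + h (j b - i b - 1) ≤ h (j b - i a - 1) := by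
            have e1 : h (j a - i a - 1) ≤ h (j b - i a - 1 - 2) := h_mono (by omega)
            have e2 : h (j b - i b - 1) ≤ h (j b - i a - 1 - 2) := h_mono (by omega)
            have e3 : h (j b - i a - 1 - 2 + 2) = 2 * h (j b - i a - 1 - 2) := h_add_two _
            rw [show j b - i a - 1 - 2 + 2 = j b - i a - 1 by omega] at e3
            omega
          have m2 : h (j b - i a - 1 + 2 - 2 * r) ≤ h (j b - i a - 1 - 2 * (r - 2)) :=
            h_mono (by omega)
          omega

/-! ### Palindromic subsequences -/

/-- The palindromic subsequences of `w`, the empty one included. -/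
def pals (w : List ℕ) : Finset (List ℕ) := (w.sublists.filter (fun u => u.reverse = u)).toFinset

theorem mem_pals {w u : List ℕ} : u ∈ pals w ↔ u.Sublist w ∧ u.reverse = u := by
  simp [pals]

theorem card_pals (w : List ℕ) : (pals w).card = SP w + 1 := by
  have h1 : {u : List ℕ | u ≠ [] ∧ u.reverse = u ∧ u.Sublist w} =
      (((pals w).erase [] : Finset (List ℕ)) : Set (List ℕ)) := by
    ext u
    simp only [Set.mem_ofPred_eq, Finset.coe_erase, Set.mem_sdiff, Finset.mem_coe,
      Set.mem_singleton_iff, mem_pals]
    tauto
  unfold SP
  rw [h1, Set.ncard_coe_finset]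
  have h2 : [] ∈ pals w := mem_pals.mpr ⟨List.nil_sublist _, rfl⟩
  have h3 := Finset.card_erase_of_mem h2
  have h4 : 0 < (pals w).card := Finset.card_pos.mpr ⟨_, h2⟩
  omega

/-- Position of the first occurrence of `a`. -/
def fi (w : List ℕ) (a : ℕ) : ℕ := w.idxOf a

/-- Position of the last occurrence of `a`. -/
def la (w : List ℕ) (a : ℕ) : ℕ := w.length - 1 - w.reverse.idxOf a

/-- The part of `w` after the first occurrence of `a`. -/
def aft (w : List ℕ) (a : ℕ) : List ℕ := w.drop (w.idxOf a + 1)

/-- The part of `w` strictly between the first and the last occurrence of `a`. -/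
def mid (w : List ℕ) (a : ℕ) : List ℕ := (aft (aft w a).reverse a).reverse

theorem sublist_aft {a : ℕ} {v w : List ℕ} (hs : (a :: v).Sublist w) : v.Sublist (aft w a) := by
  induction w with
  | nil => cases hs
  | cons c w ih =>
    unfold aft at *
    by_cases hc : c = a
    · subst hc
      rw [List.idxOf_cons_self]
      simpa using hs
    · have h1 : (a :: v).Sublist w := List.Sublist.of_cons_of_ne (fun he => hc he.symm) hs
      rw [List.idxOf_cons_ne _ hc, List.drop_succ_cons]
      exact ih h1

theorem sublist_mid {a : ℕ} {v w : List ℕ} (hs : (a :: (v ++ [a])).Sublist w) :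
    v.Sublist (mid w a) := by
  have h1 := sublist_aft hs
  have h2 : (a :: v.reverse).Sublist (aft w a).reverse := by
    have := List.reverse_sublist.mpr h1
    simpa using this
  have h3 := sublist_aft h2
  have := List.reverse_sublist.mpr h3
  unfold mid
  simpa using this

theorem la_eq {a : ℕ} {w : List ℕ} (ha : a ∈ aft w a) :
    w.reverse.idxOf a = (aft w a).reverse.idxOf a := by
  have h1 : w.reverse = (aft w a).reverse ++ (w.take (w.idxOf a + 1)).reverse := by
    unfold aft
    rw [← List.reverse_append, List.take_append_drop]
  conv_lhs => rw [h1]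
  exact List.idxOf_append_of_mem (List.mem_reverse.mpr ha)

theorem length_mid {a : ℕ} {w : List ℕ} (ha : a ∈ aft w a) :
    fi w a < la w a ∧ la w a < w.length ∧ (mid w a).length = la w a - fi w a - 1 := by
  have h1 : (aft w a).length = w.length - (w.idxOf a + 1) := by
    unfold aft
    rw [List.length_drop]
  have h2 : (aft w a).reverse.idxOf a < (aft w a).reverse.length :=
    List.idxOf_lt_length_of_mem (List.mem_reverse.mpr ha)
  rw [List.length_reverse] at h2
  have h3 : (mid w a).length = (aft w a).length - ((aft w a).reverse.idxOf a + 1) := by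
    unfold mid
    rw [List.length_reverse]
    conv_lhs => unfold aft
    rw [List.length_drop, List.length_reverse]
    rfl
  have h4 := la_eq ha
  unfold fi la
  rw [h4, h3]
  omega

/-- The letters which occur at least twice. -/
def rep (w : List ℕ) : Finset ℕ := w.toFinset.filter (fun a => fi w a < la w a)

theorem pals_subset (w : List ℕ) : pals w ⊆ {[]} ∪ w.toFinset.image (fun a => [a]) ∪
    (rep w).biUnion (fun a => (pals (mid w a)).image (fun u => a :: (u ++ [a]))) := by
  intro u hu
  obtain ⟨hs, hp⟩ := mem_pals.mp hu
  cases u with
  | nil => simp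
  | cons a v =>
    rcases List.eq_nil_or_concat' v with rfl | ⟨v', b, rfl⟩
    · simp only [Finset.mem_union, Finset.mem_image]
      left
      right
      exact ⟨a, List.mem_toFinset.mpr (hs.subset List.mem_cons_self), rfl⟩
    · rw [List.reverse_cons, List.reverse_append] at hp
      simp only [List.reverse_cons, List.reverse_nil, List.nil_append, List.cons_append,
        List.cons.injEq] at hp
      obtain ⟨rfl, hp⟩ := hp
      have hp' : v'.reverse = v' := List.append_cancel_right hp
      have hmem : b ∈ aft w b := by
        have := (sublist_aft hs).subset (show b ∈ v' ++ [b] by simp)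
        exact this
      simp only [Finset.mem_union, Finset.mem_biUnion, Finset.mem_image]
      right
      refine ⟨b, ?_, v', mem_pals.mpr ⟨sublist_mid hs, hp'⟩, rfl⟩
      unfold rep
      rw [Finset.mem_filter]
      exact ⟨List.mem_toFinset.mpr (hs.subset List.mem_cons_self), (length_mid hmem).1⟩

theorem card_pals_le (w : List ℕ) :
    (pals w).card ≤ 1 + w.toFinset.card + ∑ a ∈ rep w, (pals (mid w a)).card := by
  refine (Finset.card_le_card (pals_subset w)).trans ?_
  refine (Finset.card_union_le _ _).trans ?_
  refine Nat.add_le_add ((Finset.card_union_le _ _).trans ?_) (Finset.card_biUnion_le.trans ?_)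
  · rw [Finset.card_singleton]
    exact Nat.add_le_add_left Finset.card_image_le _
  · exact Finset.sum_le_sum (fun a _ => Finset.card_image_le)

theorem getElem_fi {w : List ℕ} {a : ℕ} (ha : a ∈ w) : w[fi w a]? = some a := by
  unfold fi
  rw [List.getElem?_eq_getElem (List.idxOf_lt_length_of_mem ha), List.getElem_idxOf]

theorem getElem_la {w : List ℕ} {a : ℕ} (ha : a ∈ w) : w[la w a]? = some a := by
  have h1 : w.reverse[w.reverse.idxOf a]? = some a := by
    rw [List.getElem?_eq_getElem (List.idxOf_lt_length_of_mem (List.mem_reverse.mpr ha)),
      List.getElem_idxOf]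
  rw [List.getElem?_reverse (by
    have := List.idxOf_lt_length_of_mem (List.mem_reverse.mpr ha)
    rwa [List.length_reverse] at this)] at h1
  exact h1

theorem la_lt {w : List ℕ} {a : ℕ} (ha : a ∈ w) : la w a < w.length := by
  have : 0 < w.length := List.length_pos_iff.mpr (List.ne_nil_of_mem ha)
  unfold la
  omega

theorem mem_of_rep {w : List ℕ} {a : ℕ} (ha : a ∈ rep w) : a ∈ w ∧ fi w a < la w a := by
  unfold rep at ha
  rw [Finset.mem_filter, List.mem_toFinset] at ha
  exact ha

/-- Counting letters: `q + r ≤ n`. -/
theorem card_add_card_le (w : List ℕ) : w.toFinset.card + (rep w).card ≤ w.length := by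
  have h1 : (w.toFinset.image (fi w)).card = w.toFinset.card := by
    apply Finset.card_image_of_injOn
    intro a ha b hb hab
    have e1 := getElem_fi (List.mem_toFinset.mp ha)
    have e2 := getElem_fi (List.mem_toFinset.mp hb)
    rw [hab, e2] at e1
    exact (Option.some.inj e1).symm
  have h2 : ((rep w).image (la w)).card = (rep w).card := by
    apply Finset.card_image_of_injOn
    intro a ha b hb hab
    have e1 := getElem_la (mem_of_rep ha).1
    have e2 := getElem_la (mem_of_rep hb).1
    rw [hab, e2] at e1
    exact (Option.some.inj e1).symm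
  have h3 : Disjoint (w.toFinset.image (fi w)) ((rep w).image (la w)) := by
    rw [Finset.disjoint_left]
    intro x hx hy
    obtain ⟨a, ha, rfl⟩ := Finset.mem_image.mp hx
    obtain ⟨b, hb, hba⟩ := Finset.mem_image.mp hy
    have e1 := getElem_fi (List.mem_toFinset.mp ha)
    have e2 := getElem_la (mem_of_rep hb).1
    rw [hba, e1] at e2
    have := Option.some.inj e2
    subst this
    have := (mem_of_rep hb).2
    omega
  rw [← h1, ← h2, ← Finset.card_union_of_disjoint h3]
  calc _ ≤ (Finset.range w.length).card := by
        apply Finset.card_le_card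
        intro x hx
        rw [Finset.mem_range]
        rcases Finset.mem_union.mp hx with hx | hx
        · obtain ⟨a, ha, rfl⟩ := Finset.mem_image.mp hx
          exact List.idxOf_lt_length_of_mem (List.mem_toFinset.mp ha)
        · obtain ⟨a, ha, rfl⟩ := Finset.mem_image.mp hx
          exact la_lt (mem_of_rep ha).1
    _ = w.length := Finset.card_range _

/-- Letters which occur twice are found again after their first occurrence. -/
theorem mem_aft {w : List ℕ} {a : ℕ} (ha : a ∈ rep w) : a ∈ aft w a := by
  obtain ⟨h1, h2⟩ := mem_of_rep ha
  have h3 := getElem_la h1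
  unfold aft
  rw [List.mem_iff_getElem?]
  refine ⟨la w a - (fi w a + 1), ?_⟩
  rw [List.getElem?_drop]
  rw [show w.idxOf a + 1 + (la w a - (fi w a + 1)) = la w a by
    have : fi w a = w.idxOf a := rfl
    omega]
  exact h3

/-- The main inequality, with the equality case. -/
theorem main_bound (n : ℕ) : ∀ w : List ℕ, w.length = n → (pals w).card + 1 ≤ h n ∧
    ((pals w).card + 1 = h n → w.toFinset.card + (rep w).card = n ∧ n - 2 * (rep w).card ≤ 2) := by
  induction n using Nat.strong_induction_on with
  | _ n ih =>
    intro w hw
    have hc := card_pals_le w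
    have hsum : ∑ a ∈ rep w, (pals (mid w a)).card + (rep w).card ≤
        ∑ a ∈ rep w, h (la w a - fi w a - 1) := by
      rw [Finset.card_eq_sum_ones, ← Finset.sum_add_distrib]
      apply Finset.sum_le_sum
      intro a ha
      obtain ⟨h1, h2, h3⟩ := length_mid (mem_aft ha)
      exact (ih (la w a - fi w a - 1) (by omega) (mid w a) h3).1
    have hint := interval_sum (rep w).card (rep w) (fi w) (la w) 0 n rfl
      (by
        intro a ha
        have h1 := mem_of_rep ha
        have h2 := la_lt h1.1
        omega)
      (by
        intro a ha b hb hab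
        have e1 := getElem_fi (mem_of_rep ha).1
        have e2 := getElem_fi (mem_of_rep hb).1
        rw [hab, e2] at e1
        exact (Option.some.inj e1).symm)
      (by
        intro a ha b hb hab
        have e1 := getElem_la (mem_of_rep ha).1
        have e2 := getElem_la (mem_of_rep hb).1
        rw [hab, e2] at e1
        exact (Option.some.inj e1).symm)
      (by
        intro a ha b hb hab
        have e1 := getElem_fi (mem_of_rep ha).1
        have e2 := getElem_la (mem_of_rep hb).1
        rw [← hab, e1] at e2
        have := Option.some.inj e2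
        subst this
        have := (mem_of_rep hb).2
        omega)
    have hcount := card_add_card_le w
    rw [hw] at hcount
    have hge := h_ge (n - 2 * (rep w).card)
    have hrq : (rep w).card ≤ w.toFinset.card := Finset.card_filter_le _ _
    refine ⟨by omega, fun heq => ⟨by omega, ?_⟩⟩
    by_contra hcon
    have := h_gt (n - 2 * (rep w).card) (by omega)
    omega

/-! ### A word attaining the maximum -/

/-- `wd n` is a word of length `n` with letters `< n`: `… 3 1 0 1 3 …`. -/
def wd : ℕ → List ℕ
  | 0 => []
  | 1 => [0]
  | n + 2 => (n + 1) :: (wd n ++ [n + 1])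

theorem wd_length : ∀ n, (wd n).length = n
  | 0 => rfl
  | 1 => rfl
  | n + 2 => by simp [wd, wd_length n]

theorem wd_lt : ∀ n, ∀ a ∈ wd n, a < n
  | 0 => by simp [wd]
  | 1 => by simp [wd]
  | n + 2 => by
    intro a ha
    simp only [wd, List.mem_cons, List.mem_append, List.not_mem_nil, or_false] at ha
    rcases ha with h | h | h
    · omega
    · have := wd_lt n a h
      omega
    · omega

theorem card_pals_step {w : List ℕ} {a : ℕ} (ha : a ∉ w) :
    2 * (pals w).card + 1 ≤ (pals (a :: (w ++ [a]))).card := by
  have h1 : (pals w) ∪ (insert [a] ((pals w).image (fun u => a :: (u ++ [a])))) ⊆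
      pals (a :: (w ++ [a])) := by
    intro u hu
    rcases Finset.mem_union.mp hu with hu | hu
    · obtain ⟨hs, hp⟩ := mem_pals.mp hu
      exact mem_pals.mpr ⟨(hs.trans (List.sublist_append_left _ _)).cons _, hp⟩
    · rcases Finset.mem_insert.mp hu with rfl | hu
      · exact mem_pals.mpr ⟨by simp, rfl⟩
      · obtain ⟨v, hv, rfl⟩ := Finset.mem_image.mp hu
        obtain ⟨hs, hp⟩ := mem_pals.mp hv
        refine mem_pals.mpr ⟨?_, by simp [hp]⟩
        exact (List.Sublist.append_right hs [a]).cons_cons a
  have hdis : Disjoint (pals w) (insert [a] ((pals w).image (fun u => a :: (u ++ [a])))) := by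
    rw [Finset.disjoint_left]
    intro u hu hu2
    obtain ⟨hs, _⟩ := mem_pals.mp hu
    rcases Finset.mem_insert.mp hu2 with rfl | hu2
    · exact ha (hs.subset (by simp))
    · obtain ⟨v, _, rfl⟩ := Finset.mem_image.mp hu2
      exact ha (hs.subset (by simp))
  have hnot : [a] ∉ (pals w).image (fun u => a :: (u ++ [a])) := by
    intro hmem
    obtain ⟨v, _, hv⟩ := Finset.mem_image.mp hmem
    simp at hv
  have hinj : ((pals w).image (fun u => a :: (u ++ [a]))).card = (pals w).card := by
    apply Finset.card_image_of_injective
    intro u v huv
    simpa using huv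
  have := Finset.card_le_card h1
  rw [Finset.card_union_of_disjoint hdis, Finset.card_insert_of_notMem hnot, hinj] at this
  omega

theorem wd_card : ∀ n, h n ≤ (pals (wd n)).card + 1
  | 0 => by decide
  | 1 => by decide
  | n + 2 => by
    have ih := wd_card n
    have ha : n + 1 ∉ wd n := fun hm => by
      have := wd_lt n _ hm
      omega
    have := card_pals_step ha
    rw [h_add_two]
    show 2 * h n ≤ (pals ((n + 1) :: (wd n ++ [n + 1]))).card + 1
    omega

/-- **MP_06621a_co, Q1.** For every `n ≥ 1`, the maximum of `SP(w)` over all words `w` of length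
`n` equals `M(n)`; and a word `w` of length `n` with `q` distinct letters attains it only if
`q = ⌈n/2⌉` when `n` is odd, and `q ∈ {n/2, n/2 + 1}` when `n` is even. -/
theorem result (n : ℕ) (_hn : 1 ≤ n) :
    IsGreatest {k : ℕ | ∃ w : List ℕ, w.length = n ∧ SP w = k} (M n) ∧
    ∀ w : List ℕ, w.length = n → SP w = M n →
      (n % 2 = 1 → w.toFinset.card = (n + 1) / 2) ∧
      (n % 2 = 0 → w.toFinset.card = n / 2 ∨ w.toFinset.card = n / 2 + 1) := by
  have hM := M_add_two n
  refine ⟨⟨⟨wd n, wd_length n, ?_⟩, ?_⟩, ?_⟩
  · have h1 := (main_bound n (wd n) (wd_length n)).1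
    have h2 := wd_card n
    have h3 := card_pals (wd n)
    omega
  · rintro k ⟨w, hw, rfl⟩
    have h1 := (main_bound n w hw).1
    have h3 := card_pals w
    omega
  · intro w hw hSP
    have h1 := (main_bound n w hw).2
    have h3 := card_pals w
    obtain ⟨h4, h5⟩ := h1 (by omega)
    have h6 : (rep w).card ≤ w.toFinset.card := Finset.card_filter_le _ _
    constructor
    · intro hodd
      omega
    · intro heven
      omega

end Pool.Agent.Results.MP_06621a_co.MaxPalSub
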